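import Pool.Agent.helper35.FGN.Spec

/-!
# Row fgn:PAR (MP_a2a22c_al): a vertex stabiliser is not mapped onto `Γ(p) / Γ(p²)`
-/

set_option autoImplicit false

namespace Pool.Agent.FGN

open Matrix Pool.Agent.H48SL Pool.Agent.UG

theorem PAR_mono {n : ℕ} {q q' : ℕ} (h : q' ∣ q) {g : SLZ n} (hg : g ∈ Cong (Fin n) q) : g ∈ Cong (Fin n) q' := by
  obtain ⟨d, rfl⟩ := h
  obtain ⟨B, hB⟩ := mem_Cong.1 hg
  refine mem_Cong.2 ⟨(d : ℤ) • B, ?_⟩
  rw [hB, smul_smul]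
  push_cast
  rfl

theorem PAR_coe {n : ℕ} {q : ℕ} {g : SLZ n} (hg : g ∈ Cong (Fin n) q) (v : Fin n → ℤ) :
    ∃ w : Fin n → ℤ, (g : Matrix (Fin n) (Fin n) ℤ) *ᵥ v = v + (q : ℤ) • w := by
  obtain ⟨B, hB⟩ := mem_Cong.1 hg
  exact ⟨B *ᵥ v, by rw [hB, add_mulVec, one_mulVec, smul_mulVec]⟩

/-- Row PAR. -/
theorem PAR : PAR_stmt := by
  intro n hn3 H D m p hm hp hp2 hpm hdens hHD v x hxv hn
  haveI : Nontrivial (Fin n) := Fin.nontrivial_iff_two_le.2 (by omega)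
  have hpZ : Prime (p : ℤ) := Nat.prime_iff_prime_int.1 hp
  -- an entry which is not divisible by `p`
  obtain ⟨s, hs⟩ : ∃ s, ¬ (p : ℤ) ∣ v s := by
    by_contra hcon
    push Not at hcon
    have h1 : (p : ℤ) ∣ x ⬝ᵥ v := Finset.dvd_sum fun i _ => Dvd.dvd.mul_left (hcon i) _
    rw [hxv] at h1
    exact hpZ.not_isUnit (isUnit_of_dvd_one h1)
  obtain ⟨r, hrs⟩ := exists_ne s
  -- the number `k`
  have hcop : IsCoprime (m : ℤ) (p : ℤ) := by
    rw [Nat.isCoprime_iff_coprime]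
    exact ((Nat.Prime.coprime_iff_not_dvd hp).2 hpm).symm
  obtain ⟨a₀, b₀, hab⟩ := hcop
  obtain ⟨k, hk⟩ : ∃ k : ℤ, k = a₀ * m := ⟨_, rfl⟩
  have hes : ∀ c : ℤ, (c • Pi.single s 1 : Fin n → ℤ) ⬝ᵥ (Pi.single r 1) = 0 := by
    intro c
    rw [smul_dotProduct, single_one_dotProduct, Pi.single_eq_of_ne hrs.symm, smul_zero]
  obtain ⟨t, ht⟩ : ∃ t : SLZ n, t = tv (Pi.single r 1) ((k * p) • Pi.single s 1) := ⟨_, rfl⟩
  have htv : ∀ y : Fin n → ℤ, (t : Matrix (Fin n) (Fin n) ℤ) *ᵥ y = y + (k * p * y s) • Pi.single r 1 := by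
    intro y
    rw [ht, tv_mulVec (hes _), smul_dotProduct, single_one_dotProduct, smul_eq_mul]
  have htm : t ∈ Cong (Fin n) m := by
    have h1 := tv_mem_Cong (q := m) (hes (a₀ * p))
    rw [smul_smul] at h1
    have h2 : (m : ℤ) * (a₀ * p) = k * p := by rw [hk]; ring
    rw [h2, ← ht] at h1
    exact h1
  have htp : t ∈ Cong (Fin n) p := by
    have h1 := tv_mem_Cong (q := p) (hes k)
    rw [smul_smul] at h1
    have h2 : (p : ℤ) * k = k * p := by ring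
    rw [h2, ← ht] at h1
    exact h1
  have hpm0 : p ^ 2 * m ≠ 0 := mul_ne_zero (pow_ne_zero 2 hp.ne_zero) hm
  obtain ⟨h, hhH, hc⟩ := hdens (p ^ 2 * m) hpm0 t
  obtain ⟨c, hcd⟩ : ∃ c : SLZ n, c = t⁻¹ * h := ⟨_, rfl⟩
  have hhc : h = t * c := by rw [hcd, mul_inv_cancel_left]
  rw [← hcd] at hc
  have hhm : h ∈ Cong (Fin n) m := by
    rw [hhc]
    exact Subgroup.mul_mem _ htm (PAR_mono (Dvd.intro_left _ rfl) hc)
  have hhp : h ∈ Cong (Fin n) p := by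
    rw [hhc]
    exact Subgroup.mul_mem _ htp (PAR_mono (Dvd.dvd.mul_right (dvd_pow_self p two_ne_zero) m) hc)
  obtain ⟨c₂, hn1, a, ha, hnv⟩ := hn h ⟨hHD ⟨hhH, hhm⟩, hhp⟩
  obtain ⟨w, hw⟩ := PAR_coe hc v
  obtain ⟨w', hw'⟩ := PAR_coe hn1 v
  have hhv : (h : Matrix (Fin n) (Fin n) ℤ) *ᵥ v = (t : Matrix (Fin n) (Fin n) ℤ) *ᵥ ((c : Matrix (Fin n) (Fin n) ℤ) *ᵥ v) := by
    rw [mulVec_mulVec, ← Matrix.SpecialLinearGroup.coe_mul, ← hhc]
  rw [hhv, hw, hw', htv] at hnv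
  have es := congrFun hnv s
  have er := congrFun hnv r
  simp only [Pi.add_apply, Pi.smul_apply, smul_eq_mul, Pi.single_eq_same, Pi.single_eq_of_ne hrs.symm] at es er
  push_cast at es er
  rcases ha with rfl | rfl
  · apply hs
    have h1 : (p : ℤ) * (k * v s) = p * (p * (w' r - m * w r - k * p * m * w s)) := by linear_combination er
    have h2 := mul_left_cancel₀ (Int.natCast_ne_zero.2 hp.ne_zero) h1
    refine ⟨(w' r - m * w r - k * p * m * w s) + b₀ * v s, ?_⟩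
    have h3 : k + b₀ * p = 1 := by rw [hk]; exact hab
    linear_combination h2 - v s * h3
  · apply hs
    have h1 : (p : ℤ) ∣ 2 * v s := ⟨-(p * w' s) - p * (m * w s), by linear_combination es⟩
    rcases hpZ.dvd_or_dvd h1 with h2 | h2
    · exfalso
      apply hp2
      have h3 : p ∣ 2 := by exact_mod_cast h2
      exact (Nat.prime_dvd_prime_iff_eq hp Nat.prime_two).1 h3
    · exact h2

end Pool.Agent.FGN
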